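import Mathlib

/-! Modular units over the rationals, and parametrizations of elliptic curves by them. -/

namespace Pool.Agent.MP_b2c033_nt.H80

open UpperHalfPlane hiding I
open scoped Real Manifold MatrixGroups

/-- `u` is a modular unit on `X₀(M)` over `ℚ`, with `q`-expansion `F` at `∞`: it is holomorphic
without zeros on the upper half plane, invariant under `Γ₀(M)`, meromorphic at every cusp, and
its `q`-expansion has rational coefficients. -/
structure ModUnit (M : ℕ) (u : ℍ → ℂ) (F : LaurentSeries ℚ) : Prop where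
  hol : MDifferentiable 𝓘(ℂ) 𝓘(ℂ) u
  ne : ∀ z, u z ≠ 0
  inv : ∀ γ ∈ CongruenceSubgroup.Gamma0 M, ∀ z, u (γ • z) = u z
  cusp : ∀ γ : SL(2, ℤ), ∃ κ : ℝ,
    (fun z => u (γ • z)) =O[atImInfty] fun z => Real.exp (κ * z.im)
  exp : ∀ z : ℍ, HasSum
    (fun n : ℤ => (F.coeff n : ℂ) * Complex.exp (2 * π * Complex.I * z) ^ n) (u z)

/-- The function field of `E` is isomorphic to the field generated by two modular units on
`X₀(M)`. -/
def Param (E : WeierstrassCurve ℚ) (M : ℕ) : Prop :=
  ∃ u v F G, ModUnit M u F ∧ ModUnit M v G ∧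
    Nonempty (IntermediateField.adjoin ℚ {F, G} ≃ₐ[ℚ] E.toAffine.FunctionField)

end Pool.Agent.MP_b2c033_nt.H80
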