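import Pool.Agent.MP_b2c033_nt.H80.Growth

/-! The field generated by a generic point of a Weierstrass curve. -/

namespace Pool.Agent.MP_b2c033_nt.H80

open Polynomial
open scoped LaurentSeries PowerSeries

theorem field_iso {F K : Type} [Field F] [Field K] [Algebra F K] (a b : F) {x y : K}
    (hx : Transcendental F x)
    (h : y ^ 2 = x ^ 3 + algebraMap F K a * x ^ 2 + algebraMap F K b * x) :
    Nonempty (IntermediateField.adjoin F {x, y} ≃ₐ[F]
      (⟨0, a, 0, b, 0⟩ : WeierstrassCurve F).toAffine.FunctionField) := by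
  set W := (⟨0, a, 0, b, 0⟩ : WeierstrassCurve F).toAffine with hW
  have h0 : W.polynomial.eval₂ (aeval x : F[X] →ₐ[F] K) y = 0 := by
    simp only [WeierstrassCurve.Affine.polynomial, hW, eval₂_sub, eval₂_add, eval₂_mul, eval₂_C,
      eval₂_X_pow, eval₂_X]
    simp
    linear_combination h
  let φ : W.CoordinateRing →ₐ[F] K := AdjoinRoot.liftAlgHom W.polynomial (aeval x) y h0
  have h1 : ∀ p : F[X], φ (algebraMap F[X] W.CoordinateRing p) = aeval x p := fun p =>
    AdjoinRoot.liftAlgHom_of _ _ _ _ p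
  have h2 : φ (AdjoinRoot.root _) = y := AdjoinRoot.liftAlgHom_root _ _ _ _
  have hi : Function.Injective φ := by
    have : Module.Finite F[X] W.CoordinateRing :=
      .of_basis (WeierstrassCurve.Affine.CoordinateRing.basis W)
    rw [RingHom.injective_iff_ker_eq_bot]
    refine Ideal.eq_bot_of_comap_eq_bot (R := F[X]) (eq_bot_iff.2 fun p hp => ?_)
    rw [Ideal.mem_comap, RingHom.mem_ker, h1] at hp
    exact transcendental_iff.1 hx p hp
  have hr : φ.range = Algebra.adjoin F {x, y} := by
    refine le_antisymm ?_ (Algebra.adjoin_le ?_)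
    · rintro _ ⟨t, rfl⟩
      obtain ⟨p, q, rfl⟩ := WeierstrassCurve.Affine.CoordinateRing.exists_smul_basis_eq t
      have h3 : ∀ p : F[X], aeval x p ∈ Algebra.adjoin F {x, y} := fun p =>
        Algebra.adjoin_mono (Set.singleton_subset_iff.2 (Set.mem_insert _ _))
          (aeval_mem_adjoin_singleton F x)
      change φ _ ∈ _
      rw [Algebra.smul_def, Algebra.smul_def, mul_one, map_add, map_mul, h1, h1,
        AdjoinRoot.mk_X, h2]
      exact add_mem (h3 p) (mul_mem (h3 q) (Algebra.subset_adjoin (Or.inr rfl)))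
    · rintro _ (rfl | rfl)
      · exact ⟨_, (h1 X).trans (aeval_X _)⟩
      · exact ⟨_, h2⟩
  have h4 := IsFractionRing.liftAlgHom_fieldRange_eq_of_range_eq (K := W.FunctionField) hi hr
  exact ⟨(IntermediateField.equivOfEq h4.symm).trans
    (AlgEquiv.ofInjectiveField (IsFractionRing.liftAlgHom (K := W.FunctionField) hi)).symm⟩

theorem ring_iso {F K : Type} [Field F] [Field K] [Algebra F K] (a b : F) {x y : K}
    (hx : Transcendental F x)
    (h : y ^ 2 = x ^ 3 + algebraMap F K a * x ^ 2 + algebraMap F K b * x) :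
    Nonempty (IntermediateField.adjoin F {x, y} ≃+*
      (⟨0, a, 0, b, 0⟩ : WeierstrassCurve F).toAffine.FunctionField) :=
  (field_iso a b hx h).map AlgEquiv.toRingEquiv

theorem tr_of {K : Type} [Field K] {x : K⸨X⸩} {n : ℤ} (hn : n < 0) (h : x.coeff n ≠ 0) :
    Transcendental K x := by
  intro ha
  obtain ⟨p, rfl⟩ := (IsIntegrallyClosed.isIntegral_iff (R := K⟦X⟧) (K := K⸨X⸩) (x := x)).1
    (ha.isIntegral.map_of_comp_eq (algebraMap K K⟦X⟧) (RingHom.id K⸨X⸩) rfl)
  apply h
  change (HahnSeries.ofPowerSeries ℤ K p).coeff n = 0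
  rw [PowerSeries.coeff_coe, if_pos hn]

end Pool.Agent.MP_b2c033_nt.H80
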