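import Pool.Agent.MP_b2c033_nt.H80.QExp

/-! Growth of theta quotients at the cusps. -/

namespace Pool.Agent.MP_b2c033_nt.H80

open Complex Filter Asymptotics
open scoped Real Topology

/-- the filter at infinity -/
abbrev li : Filter ℂ := comap Complex.im atTop

lemma ev_ge (t : ℝ) : ∀ᶠ z in li, t ≤ z.im := preimage_mem_comap (Ici_mem_atTop t)

lemma ev_pos : ∀ᶠ z in li, 0 < z.im := (ev_ge 1).mono fun _ h => by linarith

lemma const_O (c : ℝ) : (fun _ : ℂ => c) =O[li] Complex.im :=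
  .of_bound ‖c‖ ((ev_ge 1).mono fun z h => by
    rw [Real.norm_eq_abs z.im, abs_of_pos (by linarith)]
    exact le_mul_of_one_le_right (norm_nonneg _) h)

lemma log_O {f : ℂ → ℂ} {c : ℂ} (hc : c ≠ 0) (h : Tendsto f li (𝓝 c)) :
    (fun z => Real.log ‖f z‖) =O[li] Complex.im :=
  (((Real.continuousAt_log (norm_ne_zero_iff.2 hc)).tendsto.comp h.norm).isBigO_one ℝ).trans
    (const_O 1)

lemma logth (j : Fin 3) : (fun z => Real.log ‖th j z‖) =O[li] Complex.im := by
  fin_cases j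
  · refine ((log_O two_ne_zero b2_lim).add ((isBigO_refl _ li).const_mul_left (-(π / 4)))).congr'
      (ev_pos.mono fun z hz => ?_) EventuallyEq.rfl
    change _ = Real.log ‖t2 z‖
    simp only [b2]
    rw [norm_mul, Real.log_mul (norm_ne_zero_iff.2 (t2_ne hz))
      (norm_ne_zero_iff.2 (Complex.exp_ne_zero _)), Complex.norm_exp, Real.log_exp]
    simp
    ring
  · exact log_O one_ne_zero t3_lim
  · exact log_O one_ne_zero t4_lim

lemma logV_eq (j : Fin 3) {z : ℂ} (hz : 0 < z.im) :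
    Real.log (V j z) = 4 * Real.log ‖th j z‖ + Real.log z.im := by
  rw [V, Real.log_mul (pow_ne_zero _ (norm_ne_zero_iff.2 (th_ne j hz))) hz.ne', Real.log_pow]
  norm_num

lemma logV (j : Fin 3) : (fun z => Real.log (V j z)) =O[li] Complex.im :=
  (((logth j).const_mul_left 4).add
    (Real.isLittleO_log_id_atTop.isBigO.comp_tendsto tendsto_comap)).congr'
    (ev_pos.mono fun _ hz => (logV_eq j hz).symm) EventuallyEq.rfl

lemma decomp {a b c d : ℤ} (h : a * d - b * c = 1) {k : ℕ} (hk : 0 < k) :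
    ∃ (a1 b1 c1 d1 β : ℤ) (g δ : ℕ), 0 < g ∧ 0 < δ ∧ a1 * d1 - b1 * c1 = 1 ∧
      ∀ z : ℂ, 0 < z.im → k * mob a b c d z = mob a1 b1 c1 d1 ((g * z + β) / δ) := by
  have hg : 0 < Int.gcd (k * a) c := by
    rw [Int.gcd_pos_iff]
    by_contra h0
    push Not at h0
    have h1 : a = 0 := by simpa [hk.ne'] using h0.1
    rw [h1, h0.2] at h
    simp at h
  obtain ⟨a1, c1, h1, ha, hc⟩ := Int.exists_gcd_one hg
  set g := Int.gcd (k * a) c
  obtain ⟨u, v, huv⟩ := Int.isCoprime_iff_gcd_eq_one.2 h1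
  have hδ : (g : ℤ) * (a1 * d - c1 * (k * b)) = k := by
    linear_combination (k : ℤ) * h - d * ha + k * b * hc
  have hδ0 : 0 < a1 * d - c1 * (k * b) :=
    (mul_pos_iff_of_pos_left (Int.natCast_pos.2 hg)).1 (by rw [hδ]; exact_mod_cast hk)
  obtain ⟨δ, hδ1⟩ := Int.eq_ofNat_of_zero_le hδ0.le
  refine ⟨a1, -v, c1, u, u * (k * b) + v * d, g, δ, hg, by omega, by linear_combination huv,
    fun z hz => ?_⟩
  have e0 : (δ : ℂ) ≠ 0 := by exact_mod_cast (by omega : δ ≠ 0)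
  have e1 : (k : ℂ) * a = a1 * g := by exact_mod_cast ha
  have e2 : (c : ℂ) = c1 * g := by exact_mod_cast hc
  have e3 : (u : ℂ) * a1 + v * c1 = 1 := by exact_mod_cast huv
  have e4 : (a1 : ℂ) * d - c1 * (k * b) = δ := by exact_mod_cast hδ1
  have n1 : (a1 : ℂ) * ((g * z + (u * (k * b) + v * d : ℤ)) / δ) + (-v : ℤ) =
      k * (a * z + b) / δ := by
    rw [eq_div_iff e0, add_mul, mul_assoc, div_mul_cancel₀ _ e0]
    push_cast
    linear_combination -z * e1 + k * b * e3 + v * e4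
  have n2 : (c1 : ℂ) * ((g * z + (u * (k * b) + v * d : ℤ)) / δ) + u = (c * z + d) / δ := by
    rw [eq_div_iff e0, add_mul, mul_assoc, div_mul_cancel₀ _ e0]
    push_cast
    linear_combination -z * e2 + d * e3 - u * e4
  rw [mob, mob, n1, n2, div_div_div_cancel_right₀ e0, mul_div_assoc]

lemma logV_cusp {a b c d : ℤ} (h : a * d - b * c = 1) {k : ℕ} (hk : 0 < k) (i : Fin 3) :
    (fun z => Real.log (V i (k * mob a b c d z))) =O[li] Complex.im := by
  obtain ⟨a1, b1, c1, d1, β, g, δ, hg, hδ, h1, h2⟩ := decomp h hk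
  obtain ⟨j, hj⟩ := V_mob _ a1 b1 c1 d1 le_rfl h1 i
  have hr : (0 : ℝ) < g / δ := by positivity
  have e : ∀ z : ℂ, ((g * z + β) / δ : ℂ).im = g / δ * z.im := fun z => by
    rw [Complex.div_natCast_im]
    simp
    ring
  have ht : Tendsto (fun z : ℂ => ((g * z + β) / δ : ℂ)) li li := by
    rw [tendsto_comap_iff]
    exact (tendsto_comap.const_mul_atTop hr).congr fun z => (e z).symm
  refine (((logV j).comp_tendsto ht).trans
    (((isBigO_refl _ li).const_mul_left (g / δ : ℝ)).congr_left fun z => (e z).symm)).congr'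
    (ev_pos.mono fun z hz => ?_) EventuallyEq.rfl
  simp only [Function.comp]
  rw [h2 z hz, hj _ (by rw [e]; positivity)]

/-- a quotient of four thetas -/
noncomputable def tq (r : ℚ) (i : Fin 4 → Fin 3) (k : Fin 4 → ℕ) (z : ℂ) : ℂ :=
  r * (th (i 0) (k 0 * z) * th (i 1) (k 1 * z) * (th (i 2) (k 2 * z) * th (i 3) (k 3 * z))⁻¹)

lemma tq_ne {r : ℚ} (hr : r ≠ 0) (i : Fin 4 → Fin 3) {k : Fin 4 → ℕ} (hk : ∀ t, 0 < k t) {z : ℂ}
    (hz : 0 < z.im) : tq r i k z ≠ 0 := by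
  have h := fun t => th_ne (i t) (imk (hk t) hz)
  exact mul_ne_zero (by exact_mod_cast hr)
    (mul_ne_zero (mul_ne_zero (h 0) (h 1)) (inv_ne_zero (mul_ne_zero (h 2) (h 3))))

lemma tq_cusp {r : ℚ} (hr : r ≠ 0) (i : Fin 4 → Fin 3) {k : Fin 4 → ℕ} (hk : ∀ t, 0 < k t)
    {a b c d : ℤ} (h : a * d - b * c = 1) :
    ∃ κ : ℝ, (fun z => tq r i k (mob a b c d z)) =O[li] fun z => Real.exp (κ * z.im) := by
  have h1 : (fun z => Real.log ‖tq r i k (mob a b c d z)‖) =O[li] Complex.im := by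
    have hV := fun t => logV_cusp h (hk t) (i t)
    refine ((((((hV 0).add (hV 1)).sub (hV 2)).sub (hV 3)).const_mul_left (1 / 4)).add
      (const_O (Real.log ‖(r : ℂ)‖ + (1 / 4) * (Real.log (k 2) + Real.log (k 3) - Real.log (k 0) -
        Real.log (k 1))))).congr' (ev_pos.mono fun z hz => ?_) EventuallyEq.rfl
    have hw := mob_pos h hz
    have h2 := fun t => norm_ne_zero_iff.2 (th_ne (i t) (imk (hk t) hw))
    have h3 : ∀ t, Real.log (V (i t) (k t * mob a b c d z)) =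
        4 * Real.log ‖th (i t) (k t * mob a b c d z)‖ +
          (Real.log (k t) + Real.log (mob a b c d z).im) := fun t => by
      rw [logV_eq _ (imk (hk t) hw), ← Real.log_mul (by exact_mod_cast (hk t).ne') hw.ne']
      simp
    simp only [h3, tq]
    rw [norm_mul, norm_mul, norm_mul, norm_inv, norm_mul,
      Real.log_mul (norm_ne_zero_iff.2 (by exact_mod_cast hr))
        (mul_ne_zero (mul_ne_zero (h2 0) (h2 1)) (inv_ne_zero (mul_ne_zero (h2 2) (h2 3)))),
      Real.log_mul (mul_ne_zero (h2 0) (h2 1)) (inv_ne_zero (mul_ne_zero (h2 2) (h2 3))),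
      Real.log_inv, Real.log_mul (h2 0) (h2 1), Real.log_mul (h2 2) (h2 3)]
    ring
  obtain ⟨κ, hκ⟩ := h1.bound
  refine ⟨κ, .of_bound 1 ((hκ.and ev_pos).mono fun z ⟨h2, hz⟩ => ?_)⟩
  rw [one_mul, Real.norm_eq_abs (Real.exp _), abs_of_pos (Real.exp_pos _),
    ← Real.exp_log (norm_pos_iff.2 (tq_ne hr i hk (mob_pos h hz)))]
  rw [Real.norm_eq_abs z.im, abs_of_pos hz] at h2
  exact Real.exp_le_exp.2 ((le_abs_self _).trans h2)

end Pool.Agent.MP_b2c033_nt.H80
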