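import Pool.Agent.MP_b2c033_nt.H80.Theta

/-! Invariance of theta quotients, and the permutation of the three thetas by the modular group. -/

namespace Pool.Agent.MP_b2c033_nt.H80

open Complex Filter
open scoped Real Topology

noncomputable def mob (a b c d : ℤ) (z : ℂ) : ℂ := (a * z + b) / (c * z + d)

lemma den_ne {a b c d : ℤ} (h : a * d - b * c = 1) {z : ℂ} (hz : 0 < z.im) :
    (c : ℂ) * z + d ≠ 0 := by
  intro h0
  have h1 := congrArg im h0
  simp only [add_im, mul_im, intCast_re, intCast_im, zero_mul, add_zero, zero_im, mul_eq_zero,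
    Int.cast_eq_zero, hz.ne', or_false] at h1
  subst h1
  simp only [Int.cast_zero, zero_mul, zero_add, Int.cast_eq_zero] at h0
  subst h0
  simp at h

lemma im_mob {a b c d : ℤ} (h : a * d - b * c = 1) (z : ℂ) :
    (mob a b c d z).im = z.im / normSq (c * z + d) := by
  have h' : (a : ℝ) * d - b * c = 1 := by exact_mod_cast h
  rw [mob, div_im, ← sub_div]
  congr 1
  simp only [add_im, mul_im, intCast_re, intCast_im, zero_mul, add_zero, add_re, mul_re, sub_zero]
  linear_combination z.im * h'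

lemma mob_pos {a b c d : ℤ} (h : a * d - b * c = 1) {z : ℂ} (hz : 0 < z.im) :
    0 < (mob a b c d z).im := by
  rw [im_mob h]
  exact div_pos hz (normSq_pos.2 (den_ne h hz))

lemma lawU (e : ℤ) {z : ℂ} (hz : 0 < z.im) :
    t3 (mob 1 0 (2 * e) 1 z) ^ 2 = (2 * e * z + 1) * t3 z ^ 2 := by
  have h0 := ne0 hz
  have hw : 0 < (-1 / z + 2 * ((-e : ℤ) : ℂ)).im := by simpa using imS_pos hz
  have h1 := t3_S hw
  have hd : ((2 * e : ℤ) : ℂ) * z + (1 : ℤ) ≠ 0 := den_ne (a := 1) (b := 0) (by ring) hz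
  have h2 : mob 1 0 (2 * e) 1 z = -1 / (-1 / z + 2 * ((-e : ℤ) : ℂ)) := by
    rw [mob, div_eq_div_iff hd (ne0 hw)]
    push_cast
    field_simp
    ring
  rw [h2, h1, t3_add, t3_S hz, mul_pow, mul_pow, rt_sq, rt_sq]
  push_cast
  field_simp
  linear_combination (-1 - z * e * 2) * (t3 z) ^ 2 * I_sq

/-- the character modulo 4 -/
def ch (d : ℤ) : ℂ := if d % 4 = 1 then 1 else -1

lemma w1 (n : ℕ) : ∀ a b c d : ℤ, c.natAbs + d.natAbs ≤ n → a * d - b * c = 1 → 2 ∣ b → 2 ∣ c →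
    ∀ z : ℂ, 0 < z.im → t3 (mob a b c d z) ^ 2 = ch d * (c * z + d) * t3 z ^ 2 := by
  induction n with
  | zero =>
    intro a b c d hn h
    obtain rfl : c = 0 := by omega
    obtain rfl : d = 0 := by omega
    simp at h
  | succ n ih =>
    intro a b c d hn h hb hc z hz
    have hd : d % 2 = 1 := by
      obtain ⟨c', rfl⟩ := hc
      rcases Int.even_or_odd' d with ⟨k, rfl | rfl⟩
      · have : (2 : ℤ) ∣ 1 := ⟨a * k - b * c', by linear_combination -h⟩
        omega
      · omega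
    by_cases hc0 : c = 0
    · subst hc0
      obtain ⟨b', rfl⟩ := hb
      have had : a * d = 1 := by linear_combination h
      rcases Int.eq_one_or_neg_one_of_mul_eq_one' had with ⟨rfl, rfl⟩ | ⟨rfl, rfl⟩
      · have : mob 1 (2 * b') 0 1 z = z + 2 * b' := by simp [mob]
        rw [this, t3_add]
        simp [ch]
      · have : mob (-1) (2 * b') 0 (-1) z = z + 2 * ((-b' : ℤ) : ℂ) := by
          simp only [mob]
          push_cast
          ring
        rw [this, t3_add]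
        simp [ch]
    · by_cases hlt : c.natAbs < d.natAbs
      · obtain ⟨e, he⟩ : ∃ e : ℤ, (d - 2 * e * c).natAbs < d.natAbs := by
          rcases lt_or_gt_of_ne hc0 with h1 | h1 <;> rcases le_total d 0 with h2 | h2
          exacts [⟨1, by omega⟩, ⟨-1, by omega⟩, ⟨-1, by omega⟩, ⟨1, by omega⟩]
        have h3 := ih a (b - 2 * e * a) c (d - 2 * e * c) (by omega) (by linear_combination h)
          (dvd_sub hb ⟨e * a, by ring⟩) hc (z + 2 * e) (by simpa using hz)
        have h4 : mob a (b - 2 * e * a) c (d - 2 * e * c) (z + 2 * e) = mob a b c d z := by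
          simp only [mob]
          push_cast
          congr 1 <;> ring
        have h5 : ch (d - 2 * e * c) = ch d := by
          obtain ⟨c', rfl⟩ := hc
          have : (d - 2 * e * (2 * c')) % 4 = d % 4 := by
            rw [show d - 2 * e * (2 * c') = d + 4 * (-(e * c')) by ring, Int.add_mul_emod_self_left]
          rw [ch, ch, this]
        rw [h4, h5, t3_add] at h3
        rw [h3]
        push_cast
        ring
      · obtain ⟨e, he⟩ : ∃ e : ℤ, (c - 2 * e * d).natAbs < c.natAbs := by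
          rcases lt_or_gt_of_ne hc0 with h1 | h1 <;> rcases le_total d 0 with h2 | h2
          exacts [⟨1, by omega⟩, ⟨-1, by omega⟩, ⟨-1, by omega⟩, ⟨1, by omega⟩]
        have hU : (1 : ℤ) * 1 - 0 * (2 * e) = 1 := by ring
        have h3 := ih (a - 2 * e * b) b (c - 2 * e * d) d (by omega) (by linear_combination h)
          hb (dvd_sub hc ⟨e * d, by ring⟩) _ (mob_pos hU hz)
        have h6 := den_ne hU hz
        have h7 : ((c - 2 * e * d : ℤ) : ℂ) * mob 1 0 (2 * e) 1 z + d =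
            (c * z + d) / (((2 * e : ℤ) : ℂ) * z + (1 : ℤ)) := by
          rw [mob, eq_div_iff h6, add_mul, mul_assoc, div_mul_cancel₀ _ h6]
          push_cast
          ring
        have h8 : ((a - 2 * e * b : ℤ) : ℂ) * mob 1 0 (2 * e) 1 z + b =
            (a * z + b) / (((2 * e : ℤ) : ℂ) * z + (1 : ℤ)) := by
          rw [mob, eq_div_iff h6, add_mul, mul_assoc, div_mul_cancel₀ _ h6]
          push_cast
          ring
        have h4 : mob (a - 2 * e * b) b (c - 2 * e * d) d (mob 1 0 (2 * e) 1 z) =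
            mob a b c d z := by
          rw [mob, h7, h8, div_div_div_cancel_right₀ h6, mob]
        rw [h4, h7, lawU e hz] at h3
        rw [h3]
        push_cast at h6 ⊢
        rw [mul_assoc, ← mul_assoc (_ / _), div_mul_cancel₀ _ h6, mul_assoc]

noncomputable def p4 (z : ℂ) : ℂ := t4 z / t3 z
noncomputable def p2 (z : ℂ) : ℂ := t2 z / t3 z

lemma p4_eq {z : ℂ} (hz : 0 < z.im) : p4 z = t3 (2 * z + 1) ^ 2 / t3 z ^ 2 := by
  have := t3_ne hz
  rw [t3_add_one, r34 hz, p4]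
  field_simp

lemma p4_inv {a b c d : ℤ} (h : a * d - b * c = 1) (hb : 2 ∣ b) (hc : 8 ∣ c) {z : ℂ}
    (hz : 0 < z.im) : p4 (mob a b c d z) = p4 z := by
  obtain ⟨k, rfl⟩ := hc
  have hc2 : (2 : ℤ) ∣ 8 * k := ⟨4 * k, by ring⟩
  have h1 := w1 _ a b (8 * k) d le_rfl h hb hc2 z hz
  have hda : 2 ∣ d - a := by
    have h2 : Odd (a * d) := ⟨b * (4 * k), by linear_combination h⟩
    rw [Int.odd_mul] at h2
    exact (h2.2.sub_odd h2.1).two_dvd
  have h2 := w1 _ (a + 4 * k) (2 * b + (d - a) - 4 * k) (4 * k) (d - 4 * k) le_rfl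
    (by linear_combination h) (dvd_sub (dvd_add ⟨b, rfl⟩ hda) ⟨2 * k, by ring⟩) ⟨2 * k, by ring⟩
    (2 * z + 1) (by simpa using hz)
  have h0 := den_ne h hz
  have h3 : ((4 * k : ℤ) : ℂ) * (2 * z + 1) + (d - 4 * k : ℤ) = (8 * k : ℤ) * z + d := by
    push_cast
    ring
  have h4 : mob (a + 4 * k) (2 * b + (d - a) - 4 * k) (4 * k) (d - 4 * k) (2 * z + 1) =
      2 * mob a b (8 * k) d z + 1 := by
    rw [mob, mob, h3, div_eq_iff h0, add_mul, mul_assoc, div_mul_cancel₀ _ h0]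
    push_cast
    ring
  have h5 : ch (d - 4 * k) = ch d := by
    have : (d - 4 * k) % 4 = d % 4 := by omega
    rw [ch, ch, this]
  have h6 : ch d ≠ 0 := by
    rw [ch]
    split_ifs <;> norm_num
  rw [h3, h4, h5] at h2
  rw [p4_eq (mob_pos h hz), p4_eq hz, h1, h2, mul_div_mul_left _ _ (mul_ne_zero h6 h0)]

lemma mob_scale (a b c d k : ℤ) (z : ℂ) :
    k * mob a b (k * c) d z = mob a (k * b) c d (k * z) := by
  rw [mob, mob, ← mul_div_assoc]
  push_cast
  congr 1 <;> ring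

lemma imk {k : ℕ} (hk : 0 < k) {z : ℂ} (hz : 0 < z.im) : 0 < ((k : ℂ) * z).im := by
  simp only [mul_im, natCast_re, natCast_im, zero_mul, add_zero]
  positivity

lemma p4_lev {a b c d : ℤ} (h : a * d - b * c = 1) {k : ℕ} (hk : 0 < k) (h2 : 2 ∣ k)
    (hc : ((8 * k : ℕ) : ℤ) ∣ c) {z : ℂ} (hz : 0 < z.im) :
    p4 (k * mob a b c d z) = p4 (k * z) := by
  obtain ⟨m, rfl⟩ := hc
  have h1 := mob_scale a b (8 * m) d k z
  rw [show ((8 * k : ℕ) : ℤ) * m = k * (8 * m) by push_cast; ring] at h ⊢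
  rw [Int.cast_natCast] at h1
  rw [h1]
  exact p4_inv (by linear_combination h) (Dvd.dvd.mul_right (by exact_mod_cast h2) _) ⟨m, rfl⟩
    (imk hk hz)

lemma p2_eq {z : ℂ} (hz : 0 < z.im) : p2 (4 * z) = (1 - p4 z) / (1 + p4 z) := by
  have h4 : 0 < (4 * z).im := by simpa using hz
  have h1 := t3_ne hz
  have h2 := t3_ne h4
  have h3 : 1 + p4 z = 2 * t3 (4 * z) / t3 z := by
    rw [p4, eq_div_iff h1, add_mul, div_mul_cancel₀ _ h1, t4_four hz, t3_four z]
    ring
  have h5 : 1 - p4 z = 2 * t2 (4 * z) / t3 z := by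
    rw [p4, eq_div_iff h1, sub_mul, div_mul_cancel₀ _ h1, t4_four hz, t3_four z]
    ring
  rw [h3, h5, p2]
  field_simp

lemma p2_lev {a b c d : ℤ} (h : a * d - b * c = 1) {k : ℕ} (hk : 0 < k) (h2 : 2 ∣ k)
    (hc : ((8 * k : ℕ) : ℤ) ∣ c) {z : ℂ} (hz : 0 < z.im) :
    p2 (4 * (k * mob a b c d z)) = p2 (4 * (k * z)) := by
  rw [p2_eq (imk hk (mob_pos h hz)), p2_eq (imk hk hz), p4_lev h hk h2 hc hz]

/-- the three thetas -/
noncomputable def th (i : Fin 3) : ℂ → ℂ := ![t2, t3, t4] i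

lemma th_ne (i : Fin 3) {z : ℂ} (hz : 0 < z.im) : th i z ≠ 0 := by
  fin_cases i
  exacts [t2_ne hz, t3_ne hz, t4_ne hz]

/-- the invariant size of a theta -/
noncomputable def V (i : Fin 3) (z : ℂ) : ℝ := ‖th i z‖ ^ 4 * z.im

lemma V_one (i : Fin 3) : ∃ j, ∀ z : ℂ, 0 < z.im → V i (z + 1) = V j z := by
  fin_cases i
  · refine ⟨0, fun z hz => ?_⟩
    change ‖t2 (z + 1)‖ ^ 4 * _ = ‖t2 z‖ ^ 4 * _
    rw [t2_add_one hz, norm_mul, mul_pow, ← norm_pow, e4]
    simp
  · exact ⟨2, fun z hz => by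
      change ‖t4 z‖ ^ 4 * _ = ‖t4 z‖ ^ 4 * _
      simp⟩
  · refine ⟨1, fun z hz => ?_⟩
    change ‖t4 (z + 1)‖ ^ 4 * _ = ‖t3 z‖ ^ 4 * _
    rw [t4_add_one]
    simp

lemma V_two (i : Fin 3) (z : ℂ) (hz : 0 < z.im) : V i (z + 2) = V i z := by
  fin_cases i
  · change ‖t2 (z + 2)‖ ^ 4 * _ = ‖t2 z‖ ^ 4 * _
    rw [t2_add_two hz, norm_mul, mul_pow, ← norm_pow, ← pow_mul, mul_comm 2 4, pow_mul, e4]
    simp
  · change ‖t3 (z + 2)‖ ^ 4 * _ = ‖t3 z‖ ^ 4 * _
    have := t3_add z 1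
    simp only [Int.cast_one, mul_one] at this
    rw [this]
    simp
  · change ‖t3 (z + 2 + 1)‖ ^ 4 * _ = ‖t3 (z + 1)‖ ^ 4 * _
    have := t3_add (z + 1) 1
    simp only [Int.cast_one, mul_one] at this
    rw [add_right_comm, this]
    simp

lemma V_int (n : ℤ) : ∀ i : Fin 3, ∃ j, ∀ z : ℂ, 0 < z.im → V i (z + n) = V j z := by
  induction n using Int.induction_on with
  | zero => exact fun i => ⟨i, fun z _ => by simp⟩
  | succ n ih =>
    intro i
    obtain ⟨j, hj⟩ := V_one i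
    obtain ⟨k, hk⟩ := ih j
    refine ⟨k, fun z hz => ?_⟩
    rw [← hk z hz, ← hj _ (by simpa using hz)]
    congr 1
    push_cast
    ring
  | pred n ih =>
    intro i
    obtain ⟨j, hj⟩ := V_one i
    obtain ⟨k, hk⟩ := ih j
    refine ⟨k, fun z hz => ?_⟩
    rw [← hk z hz, ← hj _ (by simpa using hz), ← V_two _ _ (by simpa using hz)]
    congr 1
    push_cast
    ring

lemma V_S (i : Fin 3) : ∃ j, ∀ z : ℂ, 0 < z.im → V i (-1 / z) = V j z := by
  have key : ∀ z w : ℂ, 0 < z.im → ‖rt z * w‖ ^ 4 * (-1 / z).im = ‖w‖ ^ 4 * z.im := by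
    intro z w hz
    have h0 : normSq z ≠ 0 := (normSq_pos.2 (ne0 hz)).ne'
    have h1 : ‖rt z‖ ^ 4 = normSq z := by
      rw [show 4 = 2 * 2 from rfl, pow_mul, ← norm_pow, rt_sq, normSq_eq_norm_sq]
      simp
    rw [norm_mul, mul_pow, h1, imS]
    field_simp
  fin_cases i
  · refine ⟨2, fun z hz => ?_⟩
    change ‖t2 _‖ ^ 4 * _ = ‖t4 z‖ ^ 4 * _
    rw [t2_S hz, key _ _ hz]
  · refine ⟨1, fun z hz => ?_⟩
    change ‖t3 _‖ ^ 4 * _ = ‖t3 z‖ ^ 4 * _
    rw [t3_S hz, key _ _ hz]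
  · refine ⟨0, fun z hz => ?_⟩
    change ‖t4 _‖ ^ 4 * _ = ‖t2 z‖ ^ 4 * _
    rw [t4_S hz, key _ _ hz]

lemma V_mob (n : ℕ) : ∀ a b c d : ℤ, c.natAbs ≤ n → a * d - b * c = 1 → ∀ i : Fin 3,
    ∃ j, ∀ z : ℂ, 0 < z.im → V i (mob a b c d z) = V j z := by
  have base : ∀ a b d : ℤ, a * d - b * 0 = 1 → ∀ i : Fin 3,
      ∃ j, ∀ z : ℂ, 0 < z.im → V i (mob a b 0 d z) = V j z := by
    intro a b d h i
    have had : a * d = 1 := by linear_combination h
    obtain ⟨j, hj⟩ := V_int (b * d) i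
    refine ⟨j, fun z hz => ?_⟩
    rw [← hj z hz]
    congr 1
    rcases Int.eq_one_or_neg_one_of_mul_eq_one' had with ⟨rfl, rfl⟩ | ⟨rfl, rfl⟩
    · simp [mob]
    · simp only [mob]
      push_cast
      ring
  induction n with
  | zero =>
    intro a b c d hn h
    obtain rfl : c = 0 := by omega
    exact base a b d h
  | succ n ih =>
    intro a b c d hn h i
    by_cases hc : c = 0
    · subst hc
      exact base a b d h i
    have hr := Int.emod_add_mul_ediv a c
    have hr1 := Int.emod_nonneg a hc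
    have hr2 := Int.emod_lt_abs a hc
    rw [Int.abs_eq_natAbs] at hr2
    set r := a % c
    set q := a / c
    have hdet : c * (-(b - q * d)) - d * (-r) = 1 := by linear_combination h + d * hr
    obtain ⟨j, hj⟩ := V_int q i
    obtain ⟨k, hk⟩ := V_S j
    obtain ⟨l, hl⟩ := ih c d (-r) (-(b - q * d)) (by omega) hdet k
    refine ⟨l, fun z hz => ?_⟩
    have hp := mob_pos hdet hz
    rw [← hl z hz, ← hk _ hp, ← hj _ (imS_pos hp)]
    congr 1
    have h0 := den_ne h hz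
    have h1 := den_ne hdet hz
    have hr' : (a : ℂ) = r + c * q := by exact_mod_cast hr.symm
    rw [mob, mob, hr']
    push_cast at h1 ⊢
    field_simp
    ring

end Pool.Agent.MP_b2c033_nt.H80
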