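import Pool.Agent.MP_b2c033_nt.H80.Field
import Pool.Agent.MP_b2c033_nt.H80.Defs

/-! Five elliptic curves parametrized by theta quotients. -/

namespace Pool.Agent.MP_b2c033_nt.H80

open Complex Filter Function PowerSeries Asymptotics
open UpperHalfPlane hiding I
open scoped Real Topology LaurentSeries MatrixGroups

/-- invariance under the matrices of level `M` -/
def Iv (M : ℕ) (f : ℂ → ℂ) : Prop :=
  ∀ a b c d : ℤ, a * d - b * c = 1 → (M : ℤ) ∣ c → ∀ z : ℂ, 0 < z.im → f (mob a b c d z) = f z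

lemma Iv.congr {M : ℕ} {f g : ℂ → ℂ} (h : Iv M f) (e : ∀ z : ℂ, 0 < z.im → g z = f z) :
    Iv M g := fun a b c d h1 h2 z hz => by
  rw [e _ (mob_pos h1 hz), e z hz, h a b c d h1 h2 z hz]

noncomputable def pp (i : Fin 3) (z : ℂ) : ℂ := th i z / t3 z

lemma iv_pp {M k : ℕ} {i : Fin 3} (hk : 0 < k)
    (h : (i = 0 ∧ 8 ∣ k ∧ 2 * k ∣ M) ∨ i = 1 ∨ (i = 2 ∧ 2 ∣ k ∧ 8 * k ∣ M)) :
    Iv M fun z => pp i (k * z) := by
  intro a b c d h1 h2 z hz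
  rcases h with ⟨rfl, ⟨j, rfl⟩, h3⟩ | rfl | ⟨rfl, h3, h4⟩
  · have := p2_lev h1 (k := 2 * j) (by omega) ⟨j, rfl⟩
      ((Int.natCast_dvd_natCast.2 (by rwa [show 8 * (2 * j) = 2 * (8 * j) by ring])).trans h2) hz
    have e : ∀ w : ℂ, ((8 * j : ℕ) : ℂ) * w = 4 * ((2 * j : ℕ) * w) := fun w => by
      push_cast; ring
    simp only [e]
    exact this
  · exact (div_self (t3_ne (imk hk (mob_pos h1 hz)))).trans (div_self (t3_ne (imk hk hz))).symm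
  · exact p4_lev h1 hk h3 ((Int.natCast_dvd_natCast.2 h4).trans h2) hz

lemma iv_tq {M : ℕ} (r : ℚ) {i : Fin 4 → Fin 3} {k : Fin 4 → ℕ} (hk : ∀ t, 0 < k t)
    (h : ∀ t, (i t = 0 ∧ 8 ∣ k t ∧ 2 * k t ∣ M) ∨ i t = 1 ∨ (i t = 2 ∧ 2 ∣ k t ∧ 8 * k t ∣ M))
    (hR : Iv M (tq 1 (fun _ => 1) k)) : Iv M (tq r i k) := by
  have e : ∀ z : ℂ, 0 < z.im → tq r i k z = r * (pp (i 0) (k 0 * z) * pp (i 1) (k 1 * z) *
      (pp (i 2) (k 2 * z) * pp (i 3) (k 3 * z))⁻¹) * tq 1 (fun _ => 1) k z := fun z hz => by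
    have h1 := fun t => t3_ne (imk (hk t) hz)
    have h2 := fun t => th_ne (i t) (imk (hk t) hz)
    have h3 : th 1 = t3 := rfl
    have key : ∀ r a b c d a' b' c' d' : ℂ, c ≠ 0 → d ≠ 0 → a' ≠ 0 → b' ≠ 0 → c' ≠ 0 → d' ≠ 0 →
        r * (a * b * (c * d)⁻¹) = r * (a / a' * (b / b') * (c / c' * (d / d'))⁻¹) *
          (1 * (a' * b' * (c' * d')⁻¹)) := by
      intros
      field_simp
    simp only [tq, pp, h3, Rat.cast_one]
    exact key _ _ _ _ _ _ _ _ _ (h2 2) (h2 3) (h1 0) (h1 1) (h1 2) (h1 3)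
  intro a b c d h1 h2 z hz
  have h3 := fun t => iv_pp (hk t) (h t) a b c d h1 h2 z hz
  simp only at h3
  rw [e _ (mob_pos h1 hz), e z hz, h3 0, h3 1, h3 2, h3 3, hR a b c d h1 h2 z hz]

lemma iv_triv {M k l : ℕ} (hk : 0 < k) (hl : 0 < l) : Iv M (tq 1 (fun _ => 1) ![k, l, k, l]) :=
  Iv.congr (f := fun _ => 1) (fun _ _ _ _ _ _ _ _ => rfl) fun z hz => by
    simp only [tq, Rat.cast_one, one_mul]
    exact mul_inv_cancel₀ (mul_ne_zero (th_ne _ (imk hk hz)) (th_ne _ (imk hl hz)))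

/-- the relations between the thetas -/
structure Rels (a b c d s4 t4' s8 t8 u8 s16 s32 : ℂ) : Prop where
  a0 : a ≠ 0
  b0 : b ≠ 0
  c0 : c ≠ 0
  d0 : d ≠ 0
  s40 : s4 ≠ 0
  t40 : t4' ≠ 0
  s80 : s8 ≠ 0
  t80 : t8 ≠ 0
  u80 : u8 ≠ 0
  e1 : s4 = c - d
  e2 : t4' = c + d
  e3 : s8 = a - b
  e4 : t8 = a + b
  e5 : u8 ^ 2 = 2 * d * c
  e6 : s16 ^ 2 = a ^ 2 - b ^ 2
  e7 : c ^ 2 = a ^ 2 + b ^ 2
  e8 : d ^ 2 = 2 * b * a
  e9 : s32 ^ 2 = c * s16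

lemma rels {z : ℂ} (hz : 0 < z.im) : Rels (t3 (32 * z)) (t2 (32 * z)) (t3 (16 * z)) (t2 (16 * z))
    (t4 (4 * z)) (t3 (4 * z)) (t4 (8 * z)) (t3 (8 * z)) (t2 (8 * z)) (t4 (16 * z))
    (t4 (32 * z)) := by
  have h4 : 0 < (4 * z).im := by simpa using hz
  have h8 : 0 < (8 * z).im := by simpa using hz
  have h16 : 0 < (16 * z).im := by simpa using hz
  have h32 : 0 < (32 * z).im := by simpa using hz
  have a1 : 4 * (4 * z) = 16 * z := by ring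
  have a2 : 4 * (8 * z) = 32 * z := by ring
  have a3 : 2 * (8 * z) = 16 * z := by ring
  have a4 : 2 * (16 * z) = 32 * z := by ring
  exact ⟨t3_ne h32, t2_ne h32, t3_ne h16, t2_ne h16, t4_ne h4, t3_ne h4, t4_ne h8, t3_ne h8,
    t2_ne h8, a1 ▸ t4_four h4, a1 ▸ t3_four _, a2 ▸ t4_four h8, a2 ▸ t3_four _, a3 ▸ r2 h8,
    a4 ▸ r4 h16, a4 ▸ r1 h16, a4 ▸ r2 h16, a4 ▸ r34 h16⟩

lemma iv128 : Iv 128 (tq 1 (fun _ => 1) ![8, 16, 4, 32]) := by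
  refine Iv.congr (f := fun z => (1 + pp 0 ((32 : ℕ) * z)) / (1 + pp 0 ((16 : ℕ) * z)))
    (fun a b c d h1 h2 z hz => ?_) fun z hz => ?_
  · have h3 := iv_pp (M := 128) (k := 32) (i := 0) (by norm_num) (by norm_num) a b c d h1 h2 z hz
    have h4 := iv_pp (M := 128) (k := 16) (i := 0) (by norm_num) (by norm_num) a b c d h1 h2 z hz
    simp only at h3 h4 ⊢
    rw [h3, h4]
  · have r := rels hz
    change ((1 : ℚ) : ℂ) * (t3 ((8 : ℕ) * z) * t3 ((16 : ℕ) * z) *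
      (t3 ((4 : ℕ) * z) * t3 ((32 : ℕ) * z))⁻¹) = (1 + t2 ((32 : ℕ) * z) / t3 ((32 : ℕ) * z)) /
        (1 + t2 ((16 : ℕ) * z) / t3 ((16 : ℕ) * z))
    push_cast
    have h1 := r.t40
    have h2 := r.a0
    have h3 := r.c0
    rw [r.e2] at h1
    rw [r.e2, r.e4]
    generalize t3 (16 * z) = c at *
    generalize t2 (16 * z) = d at *
    field_simp

lemma iv256 : Iv 256 (tq 1 (fun _ => 1) ![16, 16, 8, 32]) := by
  refine Iv.congr (f := fun z => (1 + pp 0 ((32 : ℕ) * z) ^ 2) / (1 + pp 0 ((32 : ℕ) * z)))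
    (fun a b c d h1 h2 z hz => ?_) fun z hz => ?_
  · have h3 := iv_pp (M := 256) (k := 32) (i := 0) (by norm_num) (by norm_num) a b c d h1 h2 z hz
    simp only at h3 ⊢
    rw [h3]
  · have r := rels hz
    change ((1 : ℚ) : ℂ) * (t3 ((16 : ℕ) * z) * t3 ((16 : ℕ) * z) *
      (t3 ((8 : ℕ) * z) * t3 ((32 : ℕ) * z))⁻¹) = (1 + (t2 ((32 : ℕ) * z) / t3 ((32 : ℕ) * z)) ^ 2) /
        (1 + t2 ((32 : ℕ) * z) / t3 ((32 : ℕ) * z))
    push_cast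
    have h1 := r.t80
    have h2 := r.a0
    rw [r.e4] at h1
    rw [r.e4, ← sq, r.e7]
    field_simp

lemma ex_tq {r : ℚ} (hr : r ≠ 0) {i : Fin 4 → Fin 3} {k : Fin 4 → ℕ} (hk : ∀ t, 0 < k t)
    (e : Fin 4 → ℕ) (h : ∀ t, (i t = 0 ∧ k t = 8 * e t) ∨ (i t ≠ 0 ∧ 2 ∣ k t ∧ e t = 0)) :
    ∃ F, Ex (tq r i k) ((e 0 : ℤ) + e 1 + -(e 2 + e 3)) F := by
  choose F hF using fun t => ex_th (i t) (k t) (e t) (hk t) (h t)
  exact ⟨_, (((hF 0).mul (hF 1)).mul (((hF 2).mul (hF 3)).inv fun z hz =>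
    mul_ne_zero (th_ne _ (imk (hk 2) hz)) (th_ne _ (imk (hk 3) hz)))).smul hr⟩

lemma coe_smul' (γ : SL(2, ℤ)) (z : ℍ) :
    ((γ • z : ℍ) : ℂ) = mob (γ 0 0) (γ 0 1) (γ 1 0) (γ 1 1) z := by
  rw [coe_specialLinearGroup_apply, mob]
  simp

lemma det1 (γ : SL(2, ℤ)) : γ 0 0 * γ 1 1 - γ 0 1 * γ 1 0 = 1 := by
  rw [← Matrix.det_fin_two, γ.det_coe]

lemma unit_tq {M : ℕ} {r : ℚ} (hr : r ≠ 0) {i : Fin 4 → Fin 3} {k : Fin 4 → ℕ}
    (hk : ∀ t, 0 < k t) (hI : Iv M (tq r i k)) {e : ℤ} {F : ℚ⟦X⟧} (hF : Ex (tq r i k) e F) :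
    ModUnit M (rs (tq r i k)) (HahnSeries.single e 1 * (F : ℚ⸨X⸩)) := by
  refine ⟨md_of hF.diff, fun z => tq_ne hr i hk z.im_pos, fun γ hγ z => ?_, fun γ => ?_,
    fun z => hF.hasSum z.im_pos⟩
  · simp only [rs, coe_smul']
    exact hI _ _ _ _ (det1 γ) ((ZMod.intCast_zmod_eq_zero_iff_dvd _ _).1 hγ) _ z.im_pos
  · obtain ⟨κ, hκ⟩ := tq_cusp hr i hk (det1 γ)
    refine ⟨κ, (hκ.comp_tendsto tendsto_coe_atImInfty).congr_left fun z => ?_⟩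
    simp only [rs, coe_smul', Function.comp]

theorem param_of {M : ℕ} (A B : ℚ) {x y : ℂ → ℂ} {F G : ℚ⟦X⟧} (hF : Ex x (-2) F)
    (hG : Ex y (-3) G) (ux : ModUnit M (rs x) (HahnSeries.single (-2) 1 * (F : ℚ⸨X⸩)))
    (uy : ModUnit M (rs y) (HahnSeries.single (-3) 1 * (G : ℚ⸨X⸩)))
    (h : ∀ z : ℂ, 0 < z.im → y z ^ 2 = x z ^ 3 + A * x z ^ 2 + B * x z) :
    Param ⟨0, A, 0, B, 0⟩ M := by
  have h1 : G * G = F * F * F + C A * (F * F * (X * X)) + C B * (F * (X * X * (X * X))) := by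
    have hq := nice_q.mul nice_q
    refine (hG.1.mul hG.1).uniq (((((hF.1.mul hF.1).mul hF.1).add
      (((hF.1.mul hF.1).mul hq).smul A)).add ((hF.1.mul (hq.mul hq)).smul B)).congr fun z hz => ?_)
    simp only [neg_neg, zpow_ofNat]
    linear_combination q z ^ 6 * h z hz
  refine ⟨_, _, _, _, ux, uy, (ring_iso A B (tr_of (n := -2) (by norm_num) ?_) ?_).map
    RingEquiv.toRatAlgEquiv⟩
  · have := HahnSeries.coeff_single_mul_add (r := (1 : ℚ)) (x := (F : ℚ⸨X⸩)) (a := 0) (b := -2)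
    rw [zero_add, one_mul] at this
    rw [this]
    exact fun h0 => hF.2 ((LaurentSeries.coeff_coe_powerSeries F 0).symm.trans h0)
  · have h2 := congrArg (HahnSeries.ofPowerSeries ℤ ℚ) h1
    simp only [map_add, map_mul, HahnSeries.ofPowerSeries_X] at h2
    set t : ℚ⸨X⸩ := HahnSeries.single (-1) 1
    have e1 : t * HahnSeries.single 1 1 = 1 := by
      simp [t, HahnSeries.single_mul_single]
    have e2 : (HahnSeries.single (-2) 1 : ℚ⸨X⸩) = t ^ 2 := by simp [t, HahnSeries.single_pow]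
    have e3 : (HahnSeries.single (-3) 1 : ℚ⸨X⸩) = t ^ 3 := by simp [t, HahnSeries.single_pow]
    rw [e2, e3]
    change _ = _ + HahnSeries.ofPowerSeries ℤ ℚ (C A) * _ + HahnSeries.ofPowerSeries ℤ ℚ (C B) * _
    grind

theorem param_tq {M : ℕ} (A B : ℚ) {r s : ℚ} (hr : r ≠ 0) (hs : s ≠ 0) {i j : Fin 4 → Fin 3}
    {k l : Fin 4 → ℕ} (e f : Fin 4 → ℕ) (hR : Iv M (tq 1 (fun _ => 1) k))
    (hS : Iv M (tq 1 (fun _ => 1) l))
    (hd : (∀ t, 0 < k t) ∧ (∀ t, 0 < l t) ∧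
      (∀ t, (i t = 0 ∧ 8 ∣ k t ∧ 2 * k t ∣ M) ∨ i t = 1 ∨ (i t = 2 ∧ 2 ∣ k t ∧ 8 * k t ∣ M)) ∧
      (∀ t, (j t = 0 ∧ 8 ∣ l t ∧ 2 * l t ∣ M) ∨ j t = 1 ∨ (j t = 2 ∧ 2 ∣ l t ∧ 8 * l t ∣ M)) ∧
      (∀ t, (i t = 0 ∧ k t = 8 * e t) ∨ (i t ≠ 0 ∧ 2 ∣ k t ∧ e t = 0)) ∧
      (∀ t, (j t = 0 ∧ l t = 8 * f t) ∨ (j t ≠ 0 ∧ 2 ∣ l t ∧ f t = 0)) ∧
      (e 0 : ℤ) + e 1 + -(e 2 + e 3) = -2 ∧ (f 0 : ℤ) + f 1 + -(f 2 + f 3) = -3)
    (h : ∀ z : ℂ, 0 < z.im →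
      tq s j l z ^ 2 = tq r i k z ^ 3 + A * tq r i k z ^ 2 + B * tq r i k z) :
    Param ⟨0, A, 0, B, 0⟩ M := by
  obtain ⟨hk, hl, h1, h2, h3, h4, h5, h6⟩ := hd
  obtain ⟨F, hF⟩ := ex_tq hr hk e h3
  obtain ⟨G, hG⟩ := ex_tq hs hl f h4
  rw [h5] at hF
  rw [h6] at hG
  exact param_of A B hF hG (unit_tq hr hk (iv_tq r hk h1 hR) hF)
    (unit_tq hs hl (iv_tq s hl h2 hS) hG) h

lemma alg {X Y D A B : ℂ} (hD : D ≠ 0) (h : Y ^ 2 * D = X ^ 3 + A * X ^ 2 * D + B * X * D ^ 2) :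
    (1 * (Y * D⁻¹)) ^ 2 = (1 * (X * D⁻¹)) ^ 3 + A * (1 * (X * D⁻¹)) ^ 2 + B * (1 * (X * D⁻¹)) := by
  field_simp
  linear_combination h

theorem p64 : Param ⟨0, 0, 0, -4, 0⟩ 64 := by
  refine param_tq 0 (-4) (r := 2) (s := 4) (by norm_num) (by norm_num) (i := ![1, 1, 0, 1])
    (j := ![1, 2, 0, 0]) (k := ![16, 8, 16, 8]) (l := ![16, 8, 16, 8]) ![0, 0, 2, 0] ![0, 0, 2, 1]
    (iv_triv (by norm_num) (by norm_num)) (iv_triv (by norm_num) (by norm_num)) (by decide)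
    fun z hz => ?_
  obtain ⟨-, -, c0, d0, -, -, -, t0, u0, -, -, e3, -, e5, -, e7, e8, -⟩ := rels hz
  simp only [tq, th]
  simp only [Matrix.cons_val]
  push_cast
  field_simp
  grind

theorem p128a : Param ⟨0, -2, 0, 2, 0⟩ 128 := by
  refine param_tq (-2) 2 (r := 1) (s := 1) (by norm_num) (by norm_num) (i := ![2, 0, 2, 0])
    (j := ![0, 2, 2, 0]) (k := ![8, 16, 4, 32]) (l := ![8, 16, 4, 32]) ![0, 2, 0, 4] ![1, 0, 0, 4]
    iv128 iv128 (by decide) fun z hz => ?_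
  obtain ⟨-, b0, -, -, s0, -, -, -, -, e1, -, e3, -, e5, e6, e7, e8, -⟩ := rels hz
  simp only [tq, th]
  simp only [Matrix.cons_val]
  push_cast
  exact alg (mul_ne_zero s0 b0) (by grind)

theorem p128c : Param ⟨0, 2, 0, 2, 0⟩ 128 := by
  refine param_tq 2 2 (r := 1) (s := 1) (by norm_num) (by norm_num) (i := ![2, 0, 1, 0])
    (j := ![0, 2, 1, 0]) (k := ![8, 16, 4, 32]) (l := ![8, 16, 4, 32]) ![0, 2, 0, 4] ![1, 0, 0, 4]
    iv128 iv128 (by decide) fun z hz => ?_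
  obtain ⟨-, b0, -, -, -, s0, -, -, -, -, e1, e3, -, e5, e6, e7, e8, -⟩ := rels hz
  simp only [tq, th]
  simp only [Matrix.cons_val]
  push_cast
  exact alg (mul_ne_zero s0 b0) (by grind)

theorem p256b : Param ⟨0, 0, 0, -2, 0⟩ 256 := by
  refine param_tq 0 (-2) (r := 1) (s := 1) (by norm_num) (by norm_num) (i := ![2, 0, 2, 0])
    (j := ![0, 2, 2, 0]) (k := ![16, 16, 8, 32]) (l := ![8, 32, 8, 32]) ![0, 2, 0, 4] ![1, 0, 0, 4]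
    iv256 (iv_triv (by norm_num) (by norm_num)) (by decide) fun z hz => ?_
  obtain ⟨-, b0, -, -, -, -, s0, -, -, -, -, e3, -, e5, e6, e7, e8, e9⟩ := rels hz
  simp only [tq, th]
  simp only [Matrix.cons_val]
  push_cast
  exact alg (mul_ne_zero s0 b0) (by grind)

theorem p256c : Param ⟨0, 0, 0, 2, 0⟩ 256 := by
  refine param_tq 0 2 (r := 1) (s := 1) (by norm_num) (by norm_num) (i := ![2, 0, 1, 0])
    (j := ![0, 2, 1, 0]) (k := ![16, 16, 8, 32]) (l := ![8, 32, 8, 32]) ![0, 2, 0, 4] ![1, 0, 0, 4]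
    iv256 (iv_triv (by norm_num) (by norm_num)) (by decide) fun z hz => ?_
  obtain ⟨-, b0, -, -, -, -, -, s0, -, -, -, -, e3, e5, e6, e7, e8, e9⟩ := rels hz
  simp only [tq, th]
  simp only [Matrix.cons_val]
  push_cast
  exact alg (mul_ne_zero s0 b0) (by grind)

end Pool.Agent.MP_b2c033_nt.H80
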