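import Pool.Agent.MP_b2c033_nt.H80.Inv

/-! Rational q-expansions. -/

namespace Pool.Agent.MP_b2c033_nt.H80

open Complex Filter Function PowerSeries
open UpperHalfPlane hiding I
open scoped Real Topology Manifold LaurentSeries

noncomputable def q (z : ℂ) : ℂ := cexp (2 * π * I * z)

lemma q_ne (z : ℂ) : q z ≠ 0 := Complex.exp_ne_zero _

lemma q_eq (z : ℂ) : Periodic.qParam 1 z = q z := by simp [Periodic.qParam, q]

lemma q_add_one (z : ℂ) : q (z + 1) = q z := by
  rw [q, q, mul_add, Complex.exp_add, mul_one, Complex.exp_two_pi_mul_I, mul_one]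

lemma q_diff : Differentiable ℂ q := by
  unfold q
  fun_prop

/-- holomorphic with a rational expansion in nonnegative powers of `q` -/
def Nice (f : ℂ → ℂ) (F : ℚ⟦X⟧) : Prop :=
  DifferentiableOn ℂ f {z | 0 < z.im} ∧
    ∀ z : ℂ, 0 < z.im → HasSum (fun m : ℕ => ((coeff m F : ℚ) : ℂ) * q z ^ m) (f z)

/-- restriction to the upper half plane -/
def rs (f : ℂ → ℂ) : ℍ → ℂ := fun τ => f τ

lemma per_of {f : ℂ → ℂ} (hp : ∀ z : ℂ, 0 < z.im → f (z + 1) = f z) :
    Periodic (rs f ∘ ofComplex) ((1 : ℝ) : ℂ) := by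
  intro z
  rcases lt_or_ge 0 z.im with hz | hz
  · have hz' : 0 < (z + ((1 : ℝ) : ℂ)).im := by simpa using hz
    simp only [Function.comp, ofComplex_apply_of_im_pos hz, ofComplex_apply_of_im_pos hz', rs]
    exact hp z hz
  · simp only [Function.comp]
    rw [ofComplex_apply_eq_of_im_nonpos (by simpa using hz) hz]

lemma md_of {f : ℂ → ℂ} (hd : DifferentiableOn ℂ f {z | 0 < z.im}) :
    MDifferentiable 𝓘(ℂ) 𝓘(ℂ) (rs f) :=
  mdifferentiable_iff.2 (hd.congr fun z hz => by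
    simp only [Function.comp, ofComplex_apply_of_im_pos hz, rs])

namespace Nice

variable {f g : ℂ → ℂ} {F G : ℚ⟦X⟧}

lemma per (h : Nice f F) (z : ℂ) (hz : 0 < z.im) : f (z + 1) = f z := by
  have := h.2 (z + 1) (by simpa using hz)
  rw [q_add_one] at this
  exact this.unique (h.2 z hz)

lemma hs (h : Nice f F) (τ : ℍ) : HasSum
    (fun m : ℕ => ((coeff m F : ℚ) : ℂ) • Periodic.qParam 1 (τ : ℂ) ^ m) (rs f τ) := by
  rw [q_eq]
  exact h.2 τ τ.im_pos

lemma bd (h : Nice f F) : IsBoundedAtImInfty (rs f) :=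
  isBoundedAtImInfty_of_hasSum_qExpansion one_pos h.hs

lemma an (h : Nice f F) : AnalyticAt ℂ (cuspFunction 1 (rs f)) 0 :=
  analyticAt_cuspFunction_zero one_pos (per_of h.per) (md_of h.1) h.bd

lemma qe (h : Nice f F) : qExpansion 1 (rs f) = F.map (algebraMap ℚ ℂ) := by
  have h1 := (hasFPowerSeriesOnBall_cuspFunction one_pos h.an h.hs).hasFPowerSeriesAt
  have h2 := (hasFPowerSeriesOnBall_cuspFunction one_pos h.an
    (hasSum_qExpansion one_pos (per_of h.per) (md_of h.1) h.bd)).hasFPowerSeriesAt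
  have h3 := FormalMultilinearSeries.ofScalars_series_injective ℂ ℂ
    (h2.eq_formalMultilinearSeries h1)
  ext m
  rw [coeff_map]
  exact congrFun h3 m

lemma uniq (h : Nice f F) (h' : Nice f G) : F = G :=
  PowerSeries.map_injective _ (algebraMap ℚ ℂ).injective (h.qe.symm.trans h'.qe)

lemma of_qe (hp : ∀ z : ℂ, 0 < z.im → f (z + 1) = f z) (hd : DifferentiableOn ℂ f {z | 0 < z.im})
    (hb : IsBoundedAtImInfty (rs f)) (he : qExpansion 1 (rs f) = F.map (algebraMap ℚ ℂ)) :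
    Nice f F := by
  refine ⟨hd, fun z hz => ?_⟩
  have := hasSum_qExpansion one_pos (per_of hp) (md_of hd) hb ⟨z, hz⟩
  rw [he, q_eq] at this
  exact this

lemma congr (h : Nice f F) (hg : ∀ z : ℂ, 0 < z.im → g z = f z) : Nice g F :=
  ⟨h.1.congr hg, fun z hz => hg z hz ▸ h.2 z hz⟩

lemma lim0 (h : Nice f F) : Tendsto (rs f) atImInfty (𝓝 ((coeff 0 F : ℚ) : ℂ)) := by
  have h1 := h.an.continuousAt.tendsto.comp (qParam_tendsto_atImInfty one_pos)
  have h2 : cuspFunction 1 (rs f) 0 = ((coeff 0 F : ℚ) : ℂ) := by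
    have := qExpansion_coeff (h := 1) (rs f) 0
    rw [h.qe, coeff_map] at this
    simpa using this.symm
  rw [h2] at h1
  exact h1.congr fun τ => eq_cuspFunction τ one_ne_zero (per_of h.per)

lemma lim (h : Nice f F) : Tendsto f (comap Complex.im atTop) (𝓝 ((coeff 0 F : ℚ) : ℂ)) := by
  refine (h.lim0.comp tendsto_comap_im_ofComplex).congr' ?_
  filter_upwards [preimage_mem_comap (Ioi_mem_atTop 0)] with z hz
  simp only [Function.comp, ofComplex_apply_of_im_pos hz, rs]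

lemma add (h : Nice f F) (h' : Nice g G) : Nice (fun z => f z + g z) (F + G) :=
  ⟨h.1.add h'.1, fun z hz => ((h.2 z hz).add (h'.2 z hz)).congr_fun fun m => by
    rw [map_add]; push_cast; ring⟩

lemma smul (h : Nice f F) (c : ℚ) : Nice (fun z => c * f z) (C c * F) :=
  ⟨h.1.const_mul _, fun z hz => ((h.2 z hz).mul_left (c : ℂ)).congr_fun fun m => by
    rw [coeff_C_mul]; push_cast; ring⟩

lemma mul (h : Nice f F) (h' : Nice g G) : Nice (fun z => f z * g z) (F * G) := by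
  refine of_qe (fun z hz => by rw [h.per z hz, h'.per z hz]) (h.1.mul h'.1)
    ((h.lim0.mul h'.lim0).isBigO_one ℝ) ?_
  rw [map_mul, ← h.qe, ← h'.qe]
  exact qExpansion_mul h.an h'.an

lemma inv (h : Nice f F) (h0 : ∀ z : ℂ, 0 < z.im → f z ≠ 0) (hF : coeff 0 F ≠ 0) :
    Nice (fun z => (f z)⁻¹) F⁻¹ := by
  have hp : ∀ z : ℂ, 0 < z.im → (f (z + 1))⁻¹ = (f z)⁻¹ := fun z hz => by rw [h.per z hz]
  have hd : DifferentiableOn ℂ (fun z => (f z)⁻¹) {z | 0 < z.im} := h.1.inv h0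
  have hb : IsBoundedAtImInfty (rs fun z => (f z)⁻¹) :=
    (h.lim0.inv₀ (by exact_mod_cast hF)).isBigO_one ℝ
  refine of_qe hp hd hb ?_
  have h1 := qExpansion_mul h.an
    (analyticAt_cuspFunction_zero one_pos (per_of hp) (md_of hd) hb)
  have h2 : (rs f * rs fun z => (f z)⁻¹) = 1 := funext fun τ => mul_inv_cancel₀ (h0 τ τ.im_pos)
  have h3 : F⁻¹ * F = 1 := PowerSeries.inv_mul_cancel F (by simpa using hF)
  rw [h2, qExpansion_one, h.qe] at h1
  rw [← mul_one (PowerSeries.map _ _), h1, ← mul_assoc, ← map_mul, h3, map_one, one_mul]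

end Nice

lemma nice_sparse {f : ℂ → ℂ} (hd : DifferentiableOn ℂ f {z | 0 < z.im}) {e : ℕ → ℕ}
    (he : Injective e) (s : ℕ → ℚ)
    (h : ∀ z : ℂ, 0 < z.im → HasSum (fun n => (s n : ℂ) * q z ^ e n) (f z)) :
    ∃ F, Nice f F ∧ coeff (e 0) F = s 0 := by
  refine ⟨PowerSeries.mk (Function.extend e s 0), ⟨hd, fun z hz => ?_⟩, by
    rw [coeff_mk, he.extend_apply]⟩
  refine (he.hasSum_iff fun m hm => ?_).1 ((h z hz).congr_fun fun n => ?_)
  · rw [coeff_mk, Function.extend_apply' _ _ _ hm]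
    simp
  · simp only [Function.comp, coeff_mk, he.extend_apply]

lemma nice_q : Nice q X := by
  refine ⟨q_diff.differentiableOn, fun z _ => ?_⟩
  have := hasSum_single (f := fun m : ℕ => ((coeff m (X : ℚ⟦X⟧) : ℚ) : ℂ) * q z ^ m) 1
    (fun m hm => by simp [coeff_X, hm])
  simpa using this

lemma t3_diff {g : ℂ → ℂ} (hg : Differentiable ℂ g) (h : ∀ z : ℂ, 0 < z.im → 0 < (g z).im) :
    DifferentiableOn ℂ (fun z => t3 (g z)) {z | 0 < z.im} := fun z hz =>
  ((differentiableAt_jacobiTheta (h z hz)).comp z (hg z)).differentiableWithinAt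

lemma nice3 {j : ℕ} (hj : 0 < j) :
    ∃ F, Nice (fun z => t3 ((2 * j : ℕ) * z)) F ∧ coeff 0 F = 1 := by
  have he : Injective fun n : ℕ => j * n ^ 2 := fun a b h =>
    Nat.pow_left_injective two_ne_zero (Nat.eq_of_mul_eq_mul_left hj h)
  have := nice_sparse (f := fun z => t3 ((2 * j : ℕ) * z))
    (t3_diff (by fun_prop) fun z hz => imk (by omega) hz) he (fun n => if n = 0 then 1 else 2)
    fun z hz => by
      have h1 := (hasSum_nat_jacobiTheta (imk (k := 2 * j) (by omega) hz)).mul_left 2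
      rw [← hasSum_nat_add_iff' 1]
      simp only [Finset.range_one, Finset.sum_singleton, ↓reduceIte, Rat.cast_one, ne_eq,
        OfNat.ofNat_ne_zero, not_false_eq_true, zero_pow, mul_zero, pow_zero, mul_one,
        Nat.add_eq_zero_iff, one_ne_zero, and_false, Rat.cast_ofNat]
      rw [mul_div_cancel₀ _ (two_ne_zero' ℂ)] at h1
      refine h1.congr_fun fun n => ?_
      rw [q, ← Complex.exp_nat_mul]
      congr 2
      push_cast
      ring
  simpa using this

lemma nice4 {j : ℕ} (hj : 0 < j) :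
    ∃ F, Nice (fun z => t4 ((2 * j : ℕ) * z)) F ∧ coeff 0 F = 1 := by
  obtain ⟨F, hF, hF0⟩ := nice3 hj
  obtain ⟨G, hG, hG0⟩ := nice3 (j := 4 * j) (by omega)
  refine ⟨_, ((hG.smul 2).add (hF.smul (-1))).congr fun z hz => ?_, ?_⟩
  · have h1 := t4_four (imk (k := 2 * j) (by omega) hz)
    have h2 := t3_four (((2 * j : ℕ) : ℂ) * z)
    have h3 : ((2 * (4 * j) : ℕ) : ℂ) * z = 4 * (((2 * j : ℕ) : ℂ) * z) := by push_cast; ring
    rw [h3]
    push_cast at h1 h2 ⊢
    linear_combination h1 + h2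
  · rw [map_add, coeff_C_mul, coeff_C_mul, hF0, hG0]
    norm_num

/-- the second theta without its leading exponential -/
noncomputable def b2 (w : ℂ) : ℂ := t2 w * cexp (-(π * I * w / 4))

lemma nice2 {j : ℕ} (hj : 0 < j) :
    ∃ F, Nice (fun z => b2 ((2 * j : ℕ) * z)) F ∧ coeff 0 F = 2 := by
  have he : Injective fun n : ℕ => j * (n * (n + 1)) := by
    refine StrictMono.injective (strictMono_nat_of_lt_succ fun n => ?_)
    exact Nat.mul_lt_mul_of_pos_left (by nlinarith) hj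
  have hd : DifferentiableOn ℂ (fun z => b2 ((2 * j : ℕ) * z)) {z | 0 < z.im} :=
    ((t3_diff (g := fun z => (2 * j : ℕ) * z / 4) (by fun_prop)
      fun z hz => im4 (imk (by omega) hz)).sub
      (t3_diff (by fun_prop) fun z hz => imk (by omega) hz)).mul (by fun_prop)
  have := nice_sparse hd he (fun _ => 2) fun z hz => by
    have h1 := (hs2 (imk (k := 2 * j) (by omega) hz)).nat_add_neg_add_one.mul_right
      (cexp (-(π * I * (((2 * j : ℕ) : ℂ) * z) / 4)))
    refine h1.congr_fun fun n => ?_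
    rw [q, ← Complex.exp_nat_mul, add_mul, ← Complex.exp_add, ← Complex.exp_add, Rat.cast_ofNat,
      two_mul (cexp _)]
    congr 2 <;> push_cast <;> ring
  simpa using this

lemma b2_lim : Tendsto b2 (comap Complex.im atTop) (𝓝 2) := by
  obtain ⟨F, hF, h0⟩ := nice2 one_pos
  have h1 := hF.lim
  rw [h0] at h1
  have h2 : Tendsto (fun z : ℂ => z / 2) (comap Complex.im atTop) (comap Complex.im atTop) := by
    rw [tendsto_comap_iff]
    refine (tendsto_comap.atTop_div_const two_pos).congr fun z => ?_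
    simp
  have h3 := h1.comp h2
  rw [Rat.cast_ofNat] at h3
  refine h3.congr fun z => ?_
  simp only [Function.comp]
  congr 1
  push_cast
  ring

/-- `u = q ^ e * F (q)` with `F (0) ≠ 0` -/
def Ex (u : ℂ → ℂ) (e : ℤ) (F : ℚ⟦X⟧) : Prop :=
  Nice (fun z => u z * q z ^ (-e)) F ∧ coeff 0 F ≠ 0

namespace Ex

variable {u v : ℂ → ℂ} {e d : ℤ} {F G : ℚ⟦X⟧}

lemma mul (h : Ex u e F) (h' : Ex v d G) : Ex (fun z => u z * v z) (e + d) (F * G) := by
  refine ⟨(h.1.mul h'.1).congr fun z _ => ?_, ?_⟩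
  · rw [neg_add, zpow_add₀ (q_ne z)]
    ring
  · simpa using ⟨by simpa using h.2, by simpa using h'.2⟩

lemma inv (h : Ex u e F) (h0 : ∀ z : ℂ, 0 < z.im → u z ≠ 0) : Ex (fun z => (u z)⁻¹) (-e) F⁻¹ := by
  refine ⟨(h.1.inv (fun z hz => mul_ne_zero (h0 z hz) (zpow_ne_zero _ (q_ne z))) h.2).congr
    fun z _ => ?_, ?_⟩
  · rw [mul_inv, zpow_neg (q z) (-e)]
  · simpa using h.2

lemma smul (h : Ex u e F) {c : ℚ} (hc : c ≠ 0) : Ex (fun z => c * u z) e (C c * F) :=
  ⟨(h.1.smul c).congr fun z _ => mul_assoc _ _ _, by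
    rw [coeff_C_mul]; exact mul_ne_zero hc h.2⟩

lemma diff (h : Ex u e F) : DifferentiableOn ℂ u {z | 0 < z.im} := by
  refine (h.1.1.mul ((q_diff.zpow (m := e) (Or.inl q_ne)).differentiableOn)).congr fun z _ => ?_
  rw [Pi.mul_apply, mul_assoc, ← zpow_add₀ (q_ne z), neg_add_cancel, zpow_zero, mul_one]

lemma hasSum (h : Ex u e F) {z : ℂ} (hz : 0 < z.im) : HasSum
    (fun n : ℤ => (((HahnSeries.single e 1 * (F : ℚ⸨X⸩)).coeff n : ℚ) : ℂ) * q z ^ n) (u z) := by
  have hi : Injective fun m : ℕ => (m : ℤ) + e := fun a b h => by simpa using h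
  have h1 := (h.1.2 z hz).mul_right (q z ^ e)
  rw [mul_assoc, ← zpow_add₀ (q_ne z), neg_add_cancel, zpow_zero, mul_one] at h1
  refine (hi.hasSum_iff fun n hn => ?_).1 (h1.congr_fun fun m => ?_)
  · have hn' : n - e < 0 := by
      by_contra hc
      exact hn ⟨(n - e).toNat, by simp only; omega⟩
    rw [← sub_add_cancel n e, HahnSeries.coeff_single_mul_add, PowerSeries.coeff_coe, if_pos hn']
    simp
  · simp only [Function.comp]
    rw [HahnSeries.coeff_single_mul_add, LaurentSeries.coeff_coe_powerSeries, one_mul,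
      zpow_add₀ (q_ne z), zpow_natCast, mul_assoc]

end Ex

lemma ex_th (i : Fin 3) (k e : ℕ) (hk : 0 < k)
    (h : (i = 0 ∧ k = 8 * e) ∨ (i ≠ 0 ∧ 2 ∣ k ∧ e = 0)) :
    ∃ F, Ex (fun z => th i (k * z)) e F := by
  rcases h with ⟨rfl, rfl⟩ | ⟨hi, ⟨j, rfl⟩, rfl⟩
  · obtain ⟨F, hF, h0⟩ := nice2 (j := 4 * e) (by omega)
    refine ⟨F, hF.congr fun z _ => ?_, by rw [h0]; norm_num⟩
    rw [b2, q, ← Complex.exp_int_mul, show 2 * (4 * e) = 8 * e by ring]
    congr 2
    push_cast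
    ring
  · have hj : 0 < j := by omega
    fin_cases i
    · exact absurd rfl hi
    · obtain ⟨F, hF, h0⟩ := nice3 hj
      exact ⟨F, hF.congr fun z _ => by simp [th], by rw [h0]; norm_num⟩
    · obtain ⟨F, hF, h0⟩ := nice4 hj
      exact ⟨F, hF.congr fun z _ => by simp [th], by rw [h0]; norm_num⟩

end Pool.Agent.MP_b2c033_nt.H80
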