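import Mathlib

/-! The three theta constants, their transformation laws and duplication formulas. -/

namespace Pool.Agent.MP_b2c033_nt.H80

open Complex Filter
open scoped Real Topology

noncomputable def t3 (z : ℂ) : ℂ := jacobiTheta z
noncomputable def t4 (z : ℂ) : ℂ := jacobiTheta (z + 1)
noncomputable def t2 (z : ℂ) : ℂ := jacobiTheta (z / 4) - jacobiTheta z

lemma split {ι κ : Type} {f : κ → ℂ} {i j : ι → κ} (hi : Function.Injective i)
    (hj : Function.Injective j) (h1 : ∀ a b, i a ≠ j b) (h2 : ∀ c, (∃ a, i a = c) ∨ ∃ b, j b = c)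
    {a b : ℂ} (ha : HasSum (f ∘ i) a) (hb : HasSum (f ∘ j) b) : HasSum f (a + b) := by
  refine HasSum.add_isCompl (s := Set.range i) (t := Set.range j) ⟨?_, ?_⟩
    (hi.hasSum_range_iff.2 ha) (hj.hasSum_range_iff.2 hb)
  · rw [Set.disjoint_left]
    rintro _ ⟨x, rfl⟩ ⟨y, hy⟩
    exact h1 x y hy.symm
  · rw [codisjoint_iff, eq_top_iff]
    intro c _
    exact h2 c

lemma hs3 {z : ℂ} (hz : 0 < z.im) :
    HasSum (fun n : ℤ => cexp (π * I * (n : ℂ) ^ 2 * z)) (t3 z) := by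
  have := hasSum_jacobiTheta₂_term 0 hz
  simp_rw [jacobiTheta₂_term, mul_zero, zero_add, ← jacobiTheta_eq_jacobiTheta₂] at this
  exact this

lemma im4 {z : ℂ} (hz : 0 < z.im) : 0 < (z / 4).im := by
  rw [div_ofNat_im]; positivity

lemma im2 {z : ℂ} (hz : 0 < z.im) : 0 < (2 * z).im := by simpa using hz

lemma hs2 {z : ℂ} (hz : 0 < z.im) :
    HasSum (fun n : ℤ => cexp (π * I * (2 * (n : ℂ) + 1) ^ 2 * (z / 4))) (t2 z) := by
  have h := hs3 (im4 hz)
  have hi : Function.Injective fun n : ℤ => 2 * n := fun a b h => by simpa using h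
  have hj : Function.Injective fun n : ℤ => 2 * n + 1 := fun a b h => by simpa using h
  have ha : HasSum ((fun n : ℤ => cexp (π * I * (n : ℂ) ^ 2 * (z / 4))) ∘ fun n : ℤ => 2 * n)
      (t3 z) := by
    refine (hs3 hz).congr_fun fun n => ?_
    simp only [Function.comp]
    congr 1
    push_cast
    ring
  have hb := (h.summable.comp_injective hj).hasSum
  have hc := split hi hj (fun a b => by omega)
    (fun c => by
      rcases Int.even_or_odd' c with ⟨k, rfl | rfl⟩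
      exacts [Or.inl ⟨k, rfl⟩, Or.inr ⟨k, rfl⟩]) ha hb
  have he := h.unique hc
  have : t2 z = ∑' n : ℤ, ((fun n : ℤ => cexp (π * I * (n : ℂ) ^ 2 * (z / 4))) ∘
      fun n : ℤ => 2 * n + 1) n := by
    rw [t2]
    exact sub_eq_iff_eq_add'.2 he
  rw [this]
  refine hb.congr_fun fun n => ?_
  simp only [Function.comp]
  push_cast
  rfl

lemma t3_add (z : ℂ) (n : ℤ) : t3 (z + 2 * n) = t3 z := by
  have h : Function.Periodic t3 2 := fun z => by
    rw [t3, t3, add_comm, jacobiTheta_two_add]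
  have := h.int_mul n z
  rwa [mul_comm] at this

lemma t3_add_one (z : ℂ) : t3 (z + 1) = t4 z := rfl

lemma t4_add_one (z : ℂ) : t4 (z + 1) = t3 z := by
  rw [← t3_add z 1, ← t3_add_one]
  congr 1
  push_cast
  ring

lemma t2_add_one {z : ℂ} (hz : 0 < z.im) : t2 (z + 1) = cexp (π * I / 4) * t2 z := by
  refine (hs2 (by simpa using hz)).unique (((hs2 hz).mul_left _).congr_fun fun n => ?_)
  obtain ⟨k, hk⟩ := Int.even_mul_succ_self n
  have hk' : (n : ℂ) * (n + 1) = k + k := by exact_mod_cast hk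
  rw [← Complex.exp_add, Complex.exp_eq_exp_iff_exists_int]
  refine ⟨k, ?_⟩
  linear_combination (π * I) * hk'

lemma e4 : cexp (π * I / 4) ^ 4 = -1 := by
  rw [← Complex.exp_nat_mul, ← Complex.exp_pi_mul_I]
  congr 1
  push_cast
  ring

lemma t2_add_two {z : ℂ} (hz : 0 < z.im) : t2 (z + 2) = cexp (π * I / 4) ^ 2 * t2 z := by
  rw [show z + 2 = z + 1 + 1 by ring, t2_add_one (by simpa using hz), t2_add_one hz]
  ring

lemma t3_four (z : ℂ) : t3 z = t3 (4 * z) + t2 (4 * z) := by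
  rw [t2, show 4 * z / 4 = z by ring, t3, t3]
  ring

lemma t4_four {z : ℂ} (hz : 0 < z.im) : t4 z = t3 (4 * z) - t2 (4 * z) := by
  have h4 : 0 < (4 * z).im := by simpa using hz
  have h1 := t3_add (4 * z) 2
  have h2 := t2_add_two (z := 4 * z + 2) (by simpa using hz)
  rw [t2_add_two h4] at h2
  rw [← t3_add_one, t3_four, show 4 * (z + 1) = 4 * z + 2 * ((2 : ℤ) : ℂ) by push_cast; ring, h1,
    show 4 * z + 2 * ((2 : ℤ) : ℂ) = 4 * z + 2 + 2 by push_cast; ring, h2]
  linear_combination (t2 (4 * z)) * e4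

lemma hmul {f g : ℤ → ℂ} {a b : ℂ} (hf : HasSum f a) (hg : HasSum g b) :
    HasSum (fun x : ℤ × ℤ => f x.1 * g x.2) (a * b) :=
  hf.mul hg (summable_mul_of_summable_norm hf.summable.norm hg.summable.norm)

lemma r1 {z : ℂ} (hz : 0 < z.im) : t3 z ^ 2 = t3 (2 * z) ^ 2 + t2 (2 * z) ^ 2 := by
  have h := hmul (hs3 hz) (hs3 hz)
  have ha := hmul (hs3 (im2 hz)) (hs3 (im2 hz))
  have hb := hmul (hs2 (im2 hz)) (hs2 (im2 hz))
  rw [sq, sq, sq]
  refine h.unique (split (i := fun x : ℤ × ℤ => (x.1 + x.2, x.1 - x.2))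
    (j := fun x : ℤ × ℤ => (x.1 + x.2 + 1, x.1 - x.2)) ?_ ?_ ?_ ?_
    (ha.congr_fun fun x => ?_) (hb.congr_fun fun x => ?_))
  · intro a b hab
    simp only [Prod.mk.injEq] at hab
    exact Prod.ext (by omega) (by omega)
  · intro a b hab
    simp only [Prod.mk.injEq] at hab
    exact Prod.ext (by omega) (by omega)
  · intro a b hab
    simp only [Prod.mk.injEq] at hab
    omega
  · rintro ⟨m, n⟩
    rcases Int.even_or_odd' (m + n) with ⟨k, hk | hk⟩
    · exact Or.inl ⟨(k, k - n), Prod.ext (by simp only; omega) (by simp only; omega)⟩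
    · exact Or.inr ⟨(k + n - n, k - n), Prod.ext (by simp only; omega) (by simp only; omega)⟩
  · simp only [Function.comp, ← Complex.exp_add]
    congr 1
    push_cast
    ring
  · simp only [Function.comp, ← Complex.exp_add]
    congr 1
    push_cast
    ring

lemma r4 {z : ℂ} (hz : 0 < z.im) : t4 z ^ 2 = t3 (2 * z) ^ 2 - t2 (2 * z) ^ 2 := by
  have h1 := t3_add (2 * z) 1
  rw [← t3_add_one, r1 (by simpa using hz), show 2 * (z + 1) = 2 * z + 2 * ((1 : ℤ) : ℂ) by
    push_cast; ring, h1, show 2 * z + 2 * ((1 : ℤ) : ℂ) = 2 * z + 2 by push_cast; ring,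
    t2_add_two (im2 hz)]
  linear_combination (t2 (2 * z)) ^ 2 * e4

lemma r34 {z : ℂ} (hz : 0 < z.im) : t4 (2 * z) ^ 2 = t3 z * t4 z := by
  rw [r4 (im2 hz), t3_four z, t4_four hz, show 2 * (2 * z) = 4 * z by ring]
  ring

lemma r2 {z : ℂ} (hz : 0 < z.im) : t2 z ^ 2 = 2 * t2 (2 * z) * t3 (2 * z) := by
  have hw : 0 < (z / 2).im := by rw [div_ofNat_im]; positivity
  have h1 := r1 hw
  have h2 := r1 hz
  rw [t3_four (z / 2), show 4 * (z / 2) = 2 * z by ring, show 2 * (z / 2) = z by ring] at h1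
  linear_combination -h1 - h2

lemma ne0 {z : ℂ} (hz : 0 < z.im) : z ≠ 0 := by
  rintro rfl
  simp at hz

lemma imS (z : ℂ) : (-1 / z).im = z.im / normSq z := by
  rw [neg_div, neg_im, one_div, inv_im, neg_div, neg_neg]

lemma imS_pos {z : ℂ} (hz : 0 < z.im) : 0 < (-1 / z).im := by
  rw [imS]
  exact div_pos hz (normSq_pos.2 (ne0 hz))

/-- the square root of `-i z` -/
noncomputable def rt (z : ℂ) : ℂ := (-I * z) ^ (1 / 2 : ℂ)

lemma rt_sq (z : ℂ) : rt z ^ 2 = -I * z := by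
  have := Complex.cpow_ofNat_inv_pow (-I * z) 2
  rwa [rt, one_div]

lemma rt_ne {z : ℂ} (hz : 0 < z.im) : rt z ≠ 0 := by
  intro h
  have := rt_sq z
  rw [h] at this
  exact mul_ne_zero (neg_ne_zero.2 I_ne_zero) (ne0 hz) (by rw [← this]; ring)

lemma rt_four {z : ℂ} (hz : 0 < z.im) : rt (4 * z) = 2 * rt z := by
  have h0 : -I * z ≠ 0 := mul_ne_zero (neg_ne_zero.2 I_ne_zero) (ne0 hz)
  have h4 : -I * (4 * z) = ((4 : ℝ) : ℂ) * (-I * z) := by push_cast; ring
  have h5 : ((4 : ℝ) : ℂ) * (-I * z) ≠ 0 := mul_ne_zero (by norm_num) h0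
  rw [rt, rt, h4, cpow_def_of_ne_zero h5, cpow_def_of_ne_zero h0,
    log_ofReal_mul (by norm_num) h0, add_mul, Complex.exp_add]
  congr 1
  have : Real.log 4 = 2 * Real.log 2 := by
    rw [show (4 : ℝ) = 2 ^ 2 by norm_num, Real.log_pow]; norm_num
  rw [this, show (((2 * Real.log 2 : ℝ) : ℂ)) * (1 / 2) = ((Real.log 2 : ℝ) : ℂ) by push_cast; ring,
    ← ofReal_exp, Real.exp_log (by norm_num)]
  norm_num

lemma t3_S {z : ℂ} (hz : 0 < z.im) : t3 (-1 / z) = rt z * t3 z := by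
  have h := jacobiTheta₂_functional_equation 0 z
  have h0 := rt_ne hz
  rw [t3, t3, jacobiTheta_eq_jacobiTheta₂, jacobiTheta_eq_jacobiTheta₂, h]
  change _ = rt z * (1 / rt z * _ * _)
  simp only [ne_eq, OfNat.ofNat_ne_zero, not_false_eq_true, zero_pow, mul_zero, zero_div,
    Complex.exp_zero, mul_one]
  field_simp

lemma t2_S {z : ℂ} (hz : 0 < z.im) : t2 (-1 / z) = rt z * t4 z := by
  have h4 : 0 < (4 * z).im := by simpa using hz
  have h1 := t3_S h4
  have h2 := t3_S hz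
  have h3 : -1 / z / 4 = -1 / (4 * z) := by rw [div_div, mul_comm]
  change t3 (-1 / z / 4) - t3 (-1 / z) = _
  rw [h3, h1, h2, rt_four hz, t4_four hz, t3_four z]
  ring

lemma t4_S {z : ℂ} (hz : 0 < z.im) : t4 (-1 / z) = rt z * t2 z := by
  have h1 := t3_S (im4 hz)
  have h2 := t3_S hz
  have h3 : 4 * (-1 / z) = -1 / (z / 4) := by field_simp
  have h5 := rt_four (im4 hz)
  rw [show 4 * (z / 4) = z by ring] at h5
  have h6 := t3_four (-1 / z)
  have h7 := t4_four (imS_pos hz)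
  rw [h3] at h6 h7
  change _ = rt z * (t3 (z / 4) - t3 z)
  linear_combination h7 + h6 + 2 * h1 - h2 - t3 (z / 4) * h5

lemma t3_lim : Tendsto t3 (comap im atTop) (𝓝 1) := by
  have h1 : Tendsto (fun τ : ℂ => Real.exp (-π * τ.im)) (comap im atTop) (𝓝 0) :=
    Real.tendsto_exp_atBot.comp
      (tendsto_comap.const_mul_atTop_of_neg (neg_lt_zero.2 Real.pi_pos))
  have := (isBigO_at_im_infty_jacobiTheta_sub_one.trans_tendsto h1).add_const 1
  simp only [sub_add_cancel, zero_add] at this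
  exact this

lemma t4_lim : Tendsto t4 (comap im atTop) (𝓝 1) := by
  refine t3_lim.comp (g := t3) (f := fun z => z + 1) ?_
  rw [tendsto_comap_iff]
  refine tendsto_comap.congr fun z => ?_
  simp

lemma t4_ne {z : ℂ} (hz : 0 < z.im) : t4 z ≠ 0 := by
  intro h
  have h1 : ∀ k : ℕ, t4 (2 ^ k * z) = 0 := by
    intro k
    induction k with
    | zero => simpa using h
    | succ k ih =>
      have hk : 0 < (2 ^ k * z).im := by
        rw [show (2 : ℂ) ^ k = ((2 ^ k : ℝ) : ℂ) by push_cast; rfl, im_ofReal_mul]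
        positivity
      have := r34 hk
      rw [ih, mul_zero, ← mul_assoc, ← pow_succ'] at this
      exact pow_eq_zero_iff two_ne_zero |>.1 this
  have h2 : Tendsto (fun k : ℕ => 2 ^ k * z) atTop (comap im atTop) := by
    rw [tendsto_comap_iff]
    refine ((tendsto_pow_atTop_atTop_of_one_lt (one_lt_two (α := ℝ))).atTop_mul_const hz).congr
      fun k => ?_
    simp only [Function.comp]
    rw [show (2 : ℂ) ^ k = ((2 ^ k : ℝ) : ℂ) by push_cast; rfl, im_ofReal_mul]
  have h3 := t4_lim.comp h2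
  have h4 : (t4 ∘ fun k : ℕ => 2 ^ k * z) = fun _ => 0 := funext h1
  rw [h4] at h3
  exact zero_ne_one (tendsto_const_nhds_iff.1 h3)

lemma t3_ne {z : ℂ} (hz : 0 < z.im) : t3 z ≠ 0 := by
  rw [← t4_add_one]
  exact t4_ne (by simpa using hz)

lemma t2_ne {z : ℂ} (hz : 0 < z.im) : t2 z ≠ 0 := by
  intro h
  have := t4_S hz
  rw [h, mul_zero] at this
  exact t4_ne (imS_pos hz) this

end Pool.Agent.MP_b2c033_nt.H80
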